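import Pool.Agent.Helper59.EXP.Pub
import Pool.Agent.Helper59.EX.Defs

/-!
The definitions of `EXP/Pub.lean` agree with those of `EX/Defs.lean`.
-/

open scoped TensorProduct InnerProductSpace

namespace Pool.Agent.Helper59.EXP

theorem tensorRep_eq {A B H K : Type*} [NonUnitalCStarAlgebra A] [NonUnitalCStarAlgebra B]
    [NormedAddCommGroup H] [InnerProductSpace ℂ H] [CompleteSpace H]
    [NormedAddCommGroup K] [InnerProductSpace ℂ K] [CompleteSpace K]
    (π : A →⋆ₙₐ[ℂ] (H →L[ℂ] H)) (σ : B →⋆ₙₐ[ℂ] (K →L[ℂ] K)) :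
    tensorRep π σ = EX.tensorRep π σ := rfl

theorem minNorm_eq {A B : Type} [NonUnitalCStarAlgebra A] [NonUnitalCStarAlgebra B]
    (x : A ⊗[ℂ] B) : minNorm x = EX.minNorm x := rfl

theorem isExactCstar_iff (A : Type) [NonUnitalCStarAlgebra A] :
    IsExactCstar A ↔ EX.IsExactCstar A := Iff.rfl

theorem isFullCstar_iff (G A : Type) [Group G] [CStarAlgebra A] :
    IsFullCstar G A ↔ ∃ u : G →* unitary A, EX.IsFullCstar G A u := by
  constructor
  · rintro ⟨u, h1, h2⟩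
    exact ⟨u, ⟨h1, h2⟩⟩
  · rintro ⟨u, h1, h2⟩
    exact ⟨u, h1, h2⟩

theorem fullNotExact_of (Γ : Type) [Group Γ] (h : EX.FullNotExact Γ) : FullNotExact Γ := by
  obtain ⟨⟨A, iA, u, hu⟩, h2⟩ := h
  refine ⟨⟨A, iA, (isFullCstar_iff Γ A).2 ⟨u, hu⟩⟩, ?_⟩
  intro B iB hB hex
  obtain ⟨v, hv⟩ := (isFullCstar_iff Γ B).1 hB
  exact h2 B v hv ((isExactCstar_iff B).1 hex)

theorem isAmenable_iff (G : Type) [Group G] : IsAmenable G ↔ EX.IsAmenable G := Iff.rfl

theorem restrictedWreath_eq (L G : Type) [Group L] [Group G] :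
    restrictedWreath L G = EX.restrictedWreath L G := rfl

theorem hasSubquotient_iff (Γ W : Type) [Group Γ] [Group W] :
    HasSubquotient Γ W ↔ EX.HasSubquotient Γ W := Iff.rfl

end Pool.Agent.Helper59.EXP
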