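import Pool.Agent.Helper59.EX.ForestFinal
import Pool.Agent.Helper59.EXP.St.W2
import Pool.Agent.Helper59.EXP.St.W3
import Pool.Agent.Helper59.EXP.St.W4
import Pool.Agent.Helper59.EXP.St.W5
import Pool.Agent.Helper59.EXP.St.W6
import Pool.Agent.Helper59.EXP.St.W7
import Pool.Agent.Helper59.EX.St.G1

/-!
EXP: groups in which nontrivial relations contain large powers.
-/

open MeasureTheory

namespace Pool.Agent.Helper59.EXP

open Pool.Agent.Helper59.EX (IsForest randomForest_final)

/-- The 250-th powers. -/
def powWords : Set (List (Fin 2 × Bool)) :=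
  {r | ∃ A : List (Fin 2 × Bool), A ≠ [] ∧ r = (List.replicate 250 A).flatten}

theorem nil_notMem_powWords : ([] : List (Fin 2 × Bool)) ∉ powWords := by
  rintro ⟨A, hA, h⟩
  have h1 := congrArg List.length h
  rw [List.length_flatten, List.map_replicate, List.sum_replicate, List.length_nil,
    smul_eq_mul] at h1
  have h2 : 0 < A.length := List.length_pos_iff.2 hA
  omega

theorem forbids_powWords {G : Type} [Group G] (s : Fin 2 → G)
    (h : ∀ w : FreeGroup (Fin 2), w ≠ 1 → FreeGroup.lift s w = 1 →
      ∃ A : List (Fin 2 × Bool), A ≠ [] ∧ (List.replicate 250 A).flatten <:+: w.toWord) :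
    Forbids s powWords := by
  intro w hw hne h1
  have e : (FreeGroup.mk w : FreeGroup (Fin 2)).toWord = w := by
    rw [FreeGroup.toWord_mk, FreeGroup.IsReduced.reduce_eq hw]
  rw [wval_eq_lift] at h1
  obtain ⟨A, hA, hAw⟩ := h (FreeGroup.mk w) (fun h2 => hne (by rw [← e, h2]; simp)) h1
  rw [e] at hAw
  exact ⟨_, ⟨A, hA, rfl⟩, hAw⟩

/-- The Bernoulli measure of density `17/18`. -/
noncomputable def bern : Measure Bool :=
  ENNReal.ofReal (17 / 18) • Measure.dirac true + ENNReal.ofReal (1 / 18) • Measure.dirac false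

instance : IsProbabilityMeasure bern := by
  constructor
  unfold bern
  rw [Measure.add_apply, Measure.smul_apply, Measure.smul_apply, measure_univ, measure_univ,
    smul_eq_mul, smul_eq_mul, mul_one, mul_one, ← ENNReal.ofReal_add (by norm_num) (by norm_num)]
  norm_num

theorem bern_true : bern.real {true} = 17 / 18 := by
  unfold bern
  rw [Measure.real, Measure.add_apply, Measure.smul_apply, Measure.smul_apply,
    Measure.dirac_apply, Measure.dirac_apply]
  simp only [Set.mem_singleton_iff, Set.indicator_of_mem, Pi.one_apply, smul_eq_mul, mul_one,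
    Bool.false_eq_true, not_false_eq_true, Set.indicator_of_notMem, mul_zero, add_zero]
  exact ENNReal.toReal_ofReal (by norm_num)

theorem measurableSet_forest {G K : Type} [Group G] [Countable G] [Countable K] (s : K → G) :
    MeasurableSet {ξ : G × K → Bool | IsForest s {e | ξ e = true}} := by
  have e : {ξ : G × K → Bool | IsForest s {e | ξ e = true}} =
      ⋂ a : G, ⋂ l : List ((G × K) × Bool), ({ξ | ¬ (Pool.Agent.Helper59.EX.IsWalk s a l a ∧
        (l.map Prod.fst).Nodup ∧ l ≠ [])} ∪ {ξ | ∀ e ∈ l, ξ e.1 = true}ᶜ) := by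
    ext ξ
    simp only [IsForest, Set.mem_setOf_eq, Set.mem_iInter, Set.mem_union, Set.mem_compl_iff]
    constructor
    · intro h a l
      by_cases h1 : ∀ e ∈ l, ξ e.1 = true
      · left
        rintro ⟨h2, h3, h4⟩
        exact h4 (h a l h2 h1 h3)
      · right; exact h1
    · intro h a l h2 h1 h3
      rcases h a l with h4 | h4
      · by_contra h5
        exact h4 ⟨h2, h3, h5⟩
      · exact absurd h1 h4
  rw [e]
  refine MeasurableSet.iInter fun a => MeasurableSet.iInter fun l => ?_
  refine (MeasurableSet.const _).union (MeasurableSet.compl ?_)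
  induction l with
  | nil => simp
  | cons x l ih =>
    have h2 : {ξ : G × K → Bool | ∀ e ∈ x :: l, ξ e.1 = true} =
        {ξ | ξ x.1 = true} ∩ {ξ | ∀ e ∈ l, ξ e.1 = true} := by
      ext ξ
      simp
    rw [h2]
    exact ((measurable_pi_apply (X := fun _ : G × K => Bool) x.1)
      (measurableSet_singleton true)).inter ih

theorem power_forest {G : Type} [Group G] [Countable G] (s : Fin 2 → G)
    (h : ∀ w : FreeGroup (Fin 2), w ≠ 1 → FreeGroup.lift s w = 1 →
      ∃ A : List (Fin 2 × Bool), A ≠ [] ∧ (List.replicate 250 A).flatten <:+: w.toWord) :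
    ∃ (s' : Fin 9 → G) (P : Measure (G × Fin 9 → Bool)), IsProbabilityMeasure P ∧
      (∀ g : G, P.map (fun ω e => ω (g⁻¹ * e.1, e.2)) = P) ∧
      (∀ᵐ ω ∂P, IsForest s' {e | ω e = true}) ∧
      2 * Real.sqrt (Fintype.card (Fin 9)) < ∑ i, P.real {ω | ω (1, i) = true} := by
  classical
  have hR := forbids_powWords s h
  set M := minWords powWords with hM
  set ν : Measure (G × Fin 2 → Bool) := Measure.infinitePi fun _ => bern with hν
  set x : Fin 9 → List (Fin 2 × Bool) := fun k => conjWord ((k : ℤ) - 4) with hx
  set F1 : (G × Fin 2 → Bool) → (G × Fin 2 → Bool) := fun η => ind (cleaned s M η) with hF1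
  set F2 : (G × Fin 2 → Bool) → (G × Fin 9 → Bool) :=
    fun ξ => ind (thick s x {e | ξ e = true}) with hF2
  have hF1m : Measurable F1 := measurable_cleaned s M
  have hF2m : Measurable F2 := measurable_thick s x
  have hind : ∀ {E : Type} (S : Set E), {e | ind S e = true} = S := by
    intro E S
    ext e
    simp [ind]
  set P1 : Measure (G × Fin 2 → Bool) := ν.map F1 with hP1
  have hP1p : IsProbabilityMeasure P1 := Measure.isProbabilityMeasure_map hF1m.aemeasurable
  have hP1i : ∀ g : G, P1.map (trans g) = P1 :=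
    map_equivariant ν (fun g => pi_trans bern g) F1 hF1m (fun g η => cleaned_trans s M g η)
  set P : Measure (G × Fin 9 → Bool) := P1.map F2 with hP
  have hPp : IsProbabilityMeasure P := Measure.isProbabilityMeasure_map hF2m.aemeasurable
  have hPi : ∀ g : G, P.map (trans g) = P :=
    map_equivariant P1 hP1i F2 hF2m (fun g ξ => thick_trans s x g ξ)
  refine ⟨fun k => wval s (x k), P, hPp, hPi, ?_, ?_⟩
  · -- forest
    have hinj : Function.Injective (FreeGroup.lift fun k : Fin 9 =>
        (FreeGroup.mk (x k) : FreeGroup (Fin 2))) := by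
      have e : (FreeGroup.lift fun k : Fin 9 => (FreeGroup.mk (x k) : FreeGroup (Fin 2))) =
          (FreeGroup.lift fun j : ℤ => (FreeGroup.mk (conjWord j) : FreeGroup (Fin 2))).comp
            (FreeGroup.map fun k : Fin 9 => ((k : ℤ) - 4)) := by
        ext k
        simp [hx]
      rw [e]
      refine conj_injective.comp (FreeGroup.map_injective ?_)
      intro k k' hk
      have hk' : ((k : ℕ) : ℤ) - 4 = ((k' : ℕ) : ℤ) - 4 := hk
      exact Fin.ext (by omega)
    have hcl : ∀ η, IsForest s (cleaned s M η) := isForest_cleaned s powWords hR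
      nil_notMem_powWords
    have hcomp : P = ν.map (F2 ∘ F1) := by
      rw [hP, hP1, Measure.map_map hF2m hF1m]
    rw [hcomp, ae_map_iff (hF2m.comp hF1m).aemeasurable]
    · refine Filter.Eventually.of_forall fun η => ?_
      show IsForest _ {e | ind (thick s x {e | ind (cleaned s M η) e = true}) e = true}
      rw [hind, hind]
      exact isForest_thick s x hinj _ (hcl η)
    · exact measurableSet_forest _
  · -- density
    set π : Fin 2 → ℝ := fun i => P1.real {ξ | ξ ((1 : G), i) = true} with hπ
    have hm : ∀ {K : Type} (e : G × K), MeasurableSet {ξ : G × K → Bool | ξ e = true} := by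
      intro K e
      exact (measurable_pi_apply (X := fun _ : G × K => Bool) e) (measurableSet_singleton true)
    have hπ' : ∀ i, π i = ν.real {η | ((1 : G), i) ∈ cleaned s M η} := by
      intro i
      rw [hπ]
      simp only [hP1]
      rw [map_measureReal_apply hF1m (hm _)]
      congr 1
      ext η
      simp [hF1, ind]
    have hπle : ∀ i, π i ≤ 17 / 18 := by
      intro i
      rw [hπ']
      have h1 := prob_open (G := G) bern (17 / 18) bern_true {((1 : G), i)}
      rw [Finset.card_singleton, pow_one] at h1
      rw [← h1]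
      refine measureReal_mono ?_ (measure_ne_top _ _)
      intro η hη e he
      rw [Finset.mem_singleton] at he
      rw [he]
      exact hη.1
    have hsum : (2 : ℝ) * (17 / 18) - 1 / 200 ≤ π 0 + π 1 := by
      have h1 := prob_cleaned s powWords hR bern (17 / 18) bern_true (1 / 200) (fun F hF =>
        power_sum F (fun r hr => (hF r hr).2.1))
      rw [Fin.sum_univ_two] at h1
      rw [hπ', hπ']
      simpa using h1
    have hPk : ∀ k : Fin 9, 1 - (2 * (((k : ℤ) - 4).natAbs : ℝ) * (1 - π 0) + (1 - π 1)) ≤
        P.real {ω | ω (1, k) = true} := by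
      intro k
      have h1 := prob_thick s x P1 hP1i k
      rw [Fin.sum_univ_two, (count_conjWord _).1, (count_conjWord _).2] at h1
      have h2 : P.real {ω | ω (1, k) = true} =
          P1.real {ξ | ((1 : G), k) ∈ thick s x {e | ξ e = true}} := by
        rw [hP, map_measureReal_apply hF2m (hm _)]
        congr 1
        ext ξ
        simp [hF2, ind]
      rw [h2]
      refine le_trans (le_of_eq ?_) h1
      push_cast
      ring
    have h9 : Real.sqrt ((Fintype.card (Fin 9) : ℕ) : ℝ) = 3 := by
      rw [Fintype.card_fin]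
      have : ((9 : ℕ) : ℝ) = 3 ^ 2 := by norm_num
      rw [this, Real.sqrt_sq (by norm_num)]
    rw [h9]
    refine lt_of_lt_of_le ?_ (Finset.sum_le_sum fun k _ => hPk k)
    simp only [Fin.sum_univ_succ, Fin.sum_univ_zero, Fin.val_zero, Fin.val_succ]
    have e0 := hπle 0
    have e1 := hπle 1
    norm_num
    linarith

/-- Groups whose nontrivial relations in two elements contain a 250-th power. -/
theorem power_final {G : Type} [Group G] (s : Fin 2 → G)
    (h : ∀ w : FreeGroup (Fin 2), w ≠ 1 → FreeGroup.lift s w = 1 →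
      ∃ A : List (Fin 2 × Bool), A ≠ [] ∧ (List.replicate 250 A).flatten <:+: w.toWord)
    (Γ : Type) [Group Γ] (hΓ : Pool.Agent.Helper59.EX.HasSubquotient Γ G) :
    Pool.Agent.Helper59.EX.FullNotExact Γ := by
  set G0 : Subgroup G := (FreeGroup.lift s).range with hG0
  have hF : Countable (FreeGroup (Fin 2)) :=
    (FreeGroup.toWord_injective (α := Fin 2)).countable
  have hc : Countable G0 := (FreeGroup.lift s).rangeRestrict_surjective.countable
  set s0 : Fin 2 → G0 := fun i => ⟨s i, ⟨FreeGroup.of i, by simp⟩⟩ with hs0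
  have h0 : ∀ w : FreeGroup (Fin 2), w ≠ 1 → FreeGroup.lift s0 w = 1 →
      ∃ A : List (Fin 2 × Bool), A ≠ [] ∧ (List.replicate 250 A).flatten <:+: w.toWord := by
    intro w hw h1
    refine h w hw ?_
    have e : FreeGroup.lift s = G0.subtype.comp (FreeGroup.lift s0) := by
      ext i
      simp [hs0]
    rw [e, MonoidHom.comp_apply, h1, map_one]
  have hsub : Pool.Agent.Helper59.EX.HasSubquotient Γ G0 :=
    hΓ.trans ⟨G0, MonoidHom.id G0, Function.surjective_id⟩
  obtain ⟨s', P, _, hP, hfor, hd⟩ := power_forest s0 h0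
  exact randomForest_final s' P hP hfor hd Γ hsub

end Pool.Agent.Helper59.EXP
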