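import Mathlib

/-!
Definitions used in the statements about the exactness of full group C*-algebras:
minimal tensor norm, exact C*-algebras, full group C*-algebras, amenable groups,
restricted wreath products, subquotients.
-/

open scoped TensorProduct InnerProductSpace

namespace Pool.Agent.Helper59.EXP

/-- The linear map `pi (x) sigma` from the algebraic tensor product `A (x) B` to the bounded
operators of the inner product space `H (x) K` (the algebraic tensor product of the Hilbert
spaces `H` and `K` with its usual inner product), for `*`-representations `pi` of `A` on `H` and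
`sigma` of `B` on `K`. -/
noncomputable def tensorRep {A B H K : Type*} [NonUnitalCStarAlgebra A] [NonUnitalCStarAlgebra B]
    [NormedAddCommGroup H] [InnerProductSpace ℂ H] [CompleteSpace H]
    [NormedAddCommGroup K] [InnerProductSpace ℂ K] [CompleteSpace K]
    (π : A →⋆ₙₐ[ℂ] (H →L[ℂ] H)) (σ : B →⋆ₙₐ[ℂ] (K →L[ℂ] K)) :
    A ⊗[ℂ] B →ₗ[ℂ] (H ⊗[ℂ] K →L[ℂ] H ⊗[ℂ] K) :=
  TensorProduct.lift (LinearMap.mk₂ ℂ (fun a b => TensorProduct.mapL (π a) (σ b))
    (fun a a' b => by rw [map_add, TensorProduct.mapL_add_left])
    (fun c a b => by rw [map_smul, TensorProduct.mapL_smul_left])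
    (fun a b b' => by rw [map_add, TensorProduct.mapL_add_right])
    (fun c a b => by rw [map_smul, TensorProduct.mapL_smul_right]))

/-- `r` is the operator norm of `(pi (x) sigma)(x)` for some `*`-representations `pi` of `A` on
the Hilbert space `H` and `sigma` of `B` on the Hilbert space `K`. -/
def IsRepNorm {A B : Type} [NonUnitalCStarAlgebra A] [NonUnitalCStarAlgebra B] (x : A ⊗[ℂ] B)
    (H K : Type) [NormedAddCommGroup H] [InnerProductSpace ℂ H] [CompleteSpace H]
    [NormedAddCommGroup K] [InnerProductSpace ℂ K] [CompleteSpace K] (r : ℝ) : Prop :=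
  ∃ (π : A →⋆ₙₐ[ℂ] (H →L[ℂ] H)) (σ : B →⋆ₙₐ[ℂ] (K →L[ℂ] K)), r = ‖tensorRep π σ x‖

/-- The minimal (spatial) C*-norm of an element of the algebraic tensor product of two
C*-algebras: the supremum of the operator norms of its images under all tensor products of
`*`-representations on Hilbert spaces. -/
noncomputable def minNorm {A B : Type} [NonUnitalCStarAlgebra A] [NonUnitalCStarAlgebra B]
    (x : A ⊗[ℂ] B) : ℝ :=
  sSup {r : ℝ | ∃ (H K : Type) (_ : NormedAddCommGroup H) (_ : InnerProductSpace ℂ H)
    (_ : CompleteSpace H) (_ : NormedAddCommGroup K) (_ : InnerProductSpace ℂ K)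
    (_ : CompleteSpace K), IsRepNorm x H K r}

/-- For every surjective `*`-homomorphism `q : B → C` the kernel of
`A (x)min B → A (x)min C` is the closure `A (x)min ker q` of `A (x) ker q`.  Elements of
`A (x)min B` are given by Cauchy sequences of elements of the algebraic tensor product. -/
def TensorExact (A B C : Type) [NonUnitalCStarAlgebra A] [NonUnitalCStarAlgebra B]
    [NonUnitalCStarAlgebra C] : Prop :=
  ∀ q : B →⋆ₙₐ[ℂ] C, Function.Surjective q → ∀ x : ℕ → A ⊗[ℂ] B,
    (∀ ε > 0, ∃ N, ∀ m ≥ N, ∀ n ≥ N, minNorm (x m - x n) < ε) →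
    Filter.Tendsto (fun n => minNorm (TensorProduct.map (LinearMap.id : A →ₗ[ℂ] A)
      (q : B →ₗ[ℂ] C) (x n))) Filter.atTop (nhds 0) →
    ∃ y : ℕ → A ⊗[ℂ] B,
      (∀ n, y n ∈ Submodule.span ℂ {w : A ⊗[ℂ] B | ∃ a b, q b = 0 ∧ w = a ⊗ₜ[ℂ] b}) ∧
      Filter.Tendsto (fun n => minNorm (x n - y n)) Filter.atTop (nhds 0)

/-- A C*-algebra `A` is exact if for every surjective `*`-homomorphism `q : B → C` of
C*-algebras the kernel of `A (x)min B → A (x)min C` is `A (x)min ker q`. -/
def IsExactCstar (A : Type) [NonUnitalCStarAlgebra A] : Prop :=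
  ∀ (B C : Type) [NonUnitalCStarAlgebra B] [NonUnitalCStarAlgebra C], TensorExact A B C

/-- `r` is the norm of the operator `pi(f)` for some unitary representation `pi` of the discrete
group `G` on the Hilbert space `H`. -/
def IsUnitaryNorm {G : Type} [Group G] (f : G →₀ ℂ) (H : Type) [NormedAddCommGroup H]
    [InnerProductSpace ℂ H] [CompleteSpace H] (r : ℝ) : Prop :=
  ∃ π : G →* unitary (H →L[ℂ] H), r = ‖f.sum fun g c => c • (π g : H →L[ℂ] H)‖

/-- The full norm of an element `f` of the group algebra: the supremum of the norms of `pi(f)`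
over all unitary representations `pi`. -/
noncomputable def fullNorm {G : Type} [Group G] (f : G →₀ ℂ) : ℝ :=
  sSup {r : ℝ | ∃ (H : Type) (_ : NormedAddCommGroup H) (_ : InnerProductSpace ℂ H)
    (_ : CompleteSpace H), IsUnitaryNorm f H r}

/-- The unital C*-algebra `A` is the full group C*-algebra of the discrete group `G`: for some
homomorphism `u` from `G` to the unitary group of `A` the span of `u(G)` is dense in `A` and the
norm of `∑ f(g) u(g)` is the full norm of `f`. -/
def IsFullCstar (G A : Type) [Group G] [CStarAlgebra A] : Prop :=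
  ∃ u : G →* unitary A, Dense (Submodule.span ℂ (Set.range fun g => (u g : A)) : Set A) ∧
    ∀ f : G →₀ ℂ, ‖f.sum fun g c => c • (u g : A)‖ = fullNorm f

/-- The full group C*-algebra of the discrete group `Γ` (it exists) is not exact. -/
def FullNotExact (Γ : Type) [Group Γ] : Prop :=
  (∃ (A : Type) (_ : CStarAlgebra A), IsFullCstar Γ A) ∧
  ∀ (A : Type) [CStarAlgebra A], IsFullCstar Γ A → ¬ IsExactCstar A

/-- A discrete group is amenable if it has a finitely additive left invariant probability
measure defined on all subsets. -/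
def IsAmenable (G : Type) [Group G] : Prop :=
  ∃ m : Set G → ℝ, (∀ s, 0 ≤ m s) ∧ m Set.univ = 1 ∧
    (∀ s t, Disjoint s t → m (s ∪ t) = m s + m t) ∧
    ∀ (g : G) (s : Set G), m ((fun h => g * h) '' s) = m s

/-- The restricted wreath product `L wr G`: the elements of finite support of (mathlib's)
regular wreath product. -/
def restrictedWreath (L G : Type) [Group L] [Group G] :
    Subgroup (RegularWreathProduct L G) where
  carrier := {w | (Function.mulSupport w.left).Finite}
  one_mem' := by simp
  mul_mem' := by
    intro a b ha hb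
    refine (Set.Finite.union ha (hb.preimage
      (f := fun x => a.right⁻¹ * x) (mul_right_injective _).injOn)).subset ?_
    intro x hx
    by_contra hc
    rw [Set.mem_union, not_or] at hc
    apply hx
    have h1 : a.left x = 1 := by simpa using hc.1
    have h2 : b.left (a.right⁻¹ * x) = 1 := by simpa using hc.2
    simp [h1, h2]
  inv_mem' := by
    intro a ha
    refine (ha.preimage (f := fun x => a.right * x) (mul_right_injective _).injOn).subset ?_
    intro x hx hc
    apply hx
    simpa using hc

/-- `Γ` has a subgroup with a quotient isomorphic to `W`. -/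
def HasSubquotient (Γ W : Type) [Group Γ] [Group W] : Prop :=
  ∃ (Λ : Subgroup Γ) (p : Λ →* W), Function.Surjective p

end Pool.Agent.Helper59.EXP
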