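import Pool.Agent.Helper59.EX.Forest
import Pool.Agent.Helper59.EX.St.N1

/-!
Words, walks with a given label, percolation on a Cayley graph and the forest obtained from it by
deleting the open paths whose labels are forbidden.
-/

open MeasureTheory

namespace Pool.Agent.Helper59.EXP

open Pool.Agent.Helper59.EX

/-- The value of a word. -/
def wval {G I : Type} [Group G] (s : I → G) : List (I × Bool) → G
  | [] => 1
  | (i, true) :: w => s i * wval s w
  | (i, false) :: w => (s i)⁻¹ * wval s w

/-- The walk in the Cayley graph which starts at the given vertex and has the given label. -/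
def walkOf {G I : Type} [Group G] (s : I → G) : G → List (I × Bool) → List ((G × I) × Bool)
  | _, [] => []
  | g, (i, true) :: w => ((g, i), true) :: walkOf s (g * s i) w
  | g, (i, false) :: w => ((g * (s i)⁻¹, i), false) :: walkOf s (g * (s i)⁻¹) w

/-- The label of a walk. -/
def labels {G I : Type} (l : List ((G × I) × Bool)) : List (I × Bool) :=
  l.map fun e => (e.1.2, e.2)

/-- Every nonempty reduced word with value `1` contains a member of `R`. -/
def Forbids {G I : Type} [Group G] (s : I → G) (R : Set (List (I × Bool))) : Prop :=
  ∀ w : List (I × Bool), FreeGroup.IsReduced w → w ≠ [] → wval s w = 1 → ∃ r ∈ R, r <:+: w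

/-- The reduced members of `R` which contain no other member of `R`. -/
def minWords {I : Type} (R : Set (List (I × Bool))) : Set (List (I × Bool)) :=
  {r | FreeGroup.IsReduced r ∧ r ∈ R ∧ ∀ r' ∈ R, r' <:+: r → r' = r}

/-- The open edges of `η` which do not lie on an open walk labelled by a word in `M`. -/
def cleaned {G I : Type} [Group G] (s : I → G) (M : Set (List (I × Bool))) (η : G × I → Bool) :
    Set (G × I) :=
  {e | η e = true ∧ ¬ ∃ r ∈ M, ∃ g : G, (∀ x ∈ walkOf s g r, η x.1 = true) ∧
    ∃ x ∈ walkOf s g r, x.1 = e}

/-- The translation of configurations. -/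
def trans {G I : Type} [Group G] (g : G) (η : G × I → Bool) : G × I → Bool :=
  fun e => η (g⁻¹ * e.1, e.2)

/-- The indicator of a random set of edges. -/
noncomputable def ind {E : Type} (S : Set E) : E → Bool :=
  open Classical in fun e => decide (e ∈ S)

/-- The set of the pairs `(g, k)` such that the walk from `g` with label `x k` lies in `ω`. -/
def thick {G I K : Type} [Group G] (s : I → G) (x : K → List (I × Bool)) (ω : Set (G × I)) :
    Set (G × K) :=
  {e | ∀ y ∈ walkOf s e.1 (x e.2), y.1 ∈ ω}

/-- The word of `a ^ j * b * a ^ (-j)`. -/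
def conjWord (j : ℤ) : List (Fin 2 × Bool) :=
  List.replicate j.natAbs (0, decide (0 ≤ j)) ++ [(1, true)] ++
    List.replicate j.natAbs (0, decide (j < 0))

end Pool.Agent.Helper59.EXP
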